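import Mathlib

namespace Pool.Agent.H.MP_174134_gt

open Set Filter Topology
open scoped ContDiff RealInnerProductSpace

abbrev P := ℝ × ℝ
abbrev V := EuclideanSpace ℝ (Fin 4)

noncomputable def D (e : P) (g : P → V) : P → V := fun p => fderiv ℝ g p e

variable {g h f : P → V}

theorem D_smooth (hg : ContDiff ℝ ∞ g) (e : P) : ContDiff ℝ ∞ (D e g) :=
  (hg.fderiv_right (m := ∞) (by simp)).clm_apply contDiff_const

theorem D_key (hg : ContDiff ℝ ∞ g) (e e' p : P) :
    D e (D e' g) p = fderiv ℝ (fderiv ℝ g) p e e' := by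
  have h2 : DifferentiableAt ℝ (fderiv ℝ g) p :=
    ((hg.fderiv_right (m := ∞) (by simp)).differentiable (by simp)) p
  unfold D
  rw [fderiv_clm_apply h2 (differentiableAt_const _)]
  simp

theorem D_comm (hg : ContDiff ℝ ∞ g) (e e' : P) : D e (D e' g) = D e' (D e g) := by
  funext p
  rw [D_key hg, D_key hg]
  exact (hg.contDiffAt.isSymmSndFDerivAt (by simp; norm_cast)) e e'

theorem D_inner (hg : ContDiff ℝ ∞ g) (hh : ContDiff ℝ ∞ h) {c : ℝ} (hc : ∀ p, ⟪g p, h p⟫ = c)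
    (e p : P) : ⟪D e g p, h p⟫ + ⟪g p, D e h p⟫ = 0 := by
  have h1 := fderiv_inner_apply ℝ (hg.differentiable (by simp) p) (hh.differentiable (by simp) p) e
  have h2 : (fun t => ⟪g t, h t⟫) = fun _ => c := funext hc
  rw [h2] at h1
  simp only [fderiv_fun_const, Pi.zero_apply, ContinuousLinearMap.zero_apply] at h1
  unfold D
  linarith

theorem D_clm (A : V →L[ℝ] V) (y : V) (hg : ContDiff ℝ ∞ g) (e p : P) :
    D e (fun q => A (g q - y)) p = A (D e g p) := by
  unfold D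
  have h1 : HasFDerivAt g (fderiv ℝ g p) p := (hg.differentiable (by simp) p).hasFDerivAt
  have := (A.hasFDerivAt.comp p (h1.sub_const y)).fderiv
  have h3 : (fun q => A (g q - y)) = A ∘ fun q => g q - y := rfl
  rw [h3, this]
  simp

theorem D_line (hg : ContDiff ℝ ∞ g) (e p : P) (s : ℝ) :
    HasDerivAt (fun t : ℝ => g (p + t • e)) (D e g (p + s • e)) s := by
  have h1 : HasFDerivAt g (fderiv ℝ g (p + s • e)) (p + s • e) :=
    (hg.differentiable (by simp) _).hasFDerivAt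
  have h2 : HasDerivAt (fun t : ℝ => p + t • e) e s := by
    simpa using ((hasDerivAt_id s).smul_const e).const_add p
  exact h1.comp_hasDerivAt s h2

def Iso (f : P → V) : Prop := ∀ p e : P, ‖fderiv ℝ f p e‖ ^ 2 = e.1 ^ 2 + e.2 ^ 2

theorem iso_inner (hi : Iso f) (e e' p : P) : ⟪D e f p, D e' f p⟫ = e.1 * e'.1 + e.2 * e'.2 := by
  have h1 := hi p (e + e')
  rw [map_add, norm_add_sq_real, hi p e, hi p e'] at h1
  simp only [Prod.fst_add, Prod.snd_add] at h1
  unfold D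
  linarith

theorem normal (hf : ContDiff ℝ ∞ f) (hi : Iso f) (a b c p : P) :
    ⟪D a (D b f) p, D c f p⟫ = 0 := by
  have k : ∀ a b c : P, ⟪D a (D b f) p, D c f p⟫ = -⟪D a (D c f) p, D b f p⟫ := fun a b c => by
    have := D_inner (D_smooth hf b) (D_smooth hf c) (fun q => iso_inner hi b c q) a p
    rw [real_inner_comm (D a (D c f) p)] at this
    linarith
  have h1 := k a b c
  have h2 := k c a b
  have h3 := k b c a
  rw [D_comm hf a c] at h1
  rw [D_comm hf c b] at h2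
  rw [D_comm hf b a] at h3
  linarith

theorem gauss (hf : ContDiff ℝ ∞ f) (hi : Iso f) (a b p : P) :
    ⟪D a (D a f) p, D b (D b f) p⟫ = ⟪D a (D b f) p, D a (D b f) p⟫ := by
  have h1 := D_inner (D_smooth (D_smooth hf a) a) (D_smooth hf b)
    (fun q => normal hf hi a a b q) b p
  have h2 := D_inner (D_smooth (D_smooth hf a) b) (D_smooth hf b)
    (fun q => normal hf hi b a b q) a p
  rw [D_comm (D_smooth hf a) a b, D_comm hf b a] at h2
  linarith

/-- A degenerate or indefinite binary form has an isotropic unit vector. -/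
theorem isotropic (l m n : ℝ) (h : l * n ≤ m ^ 2) :
    ∃ x y : ℝ, x ^ 2 + y ^ 2 = 1 ∧ x ^ 2 * l + 2 * x * y * m + y ^ 2 * n = 0 := by
  by_cases hl : l = 0
  · exact ⟨1, 0, by norm_num, by simp [hl]⟩
  obtain ⟨s, hs⟩ : ∃ s, s ^ 2 = m ^ 2 - l * n := ⟨√(m ^ 2 - l * n), Real.sq_sqrt (by linarith)⟩
  set x := (-m + s) / l with hx
  have hx2 : x ^ 2 * l + 2 * x * m + n = 0 := by
    rw [hx]; field_simp; linear_combination hs
  have hr : 0 < √(x ^ 2 + 1) := Real.sqrt_pos.2 (by positivity)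
  have hr2 : √(x ^ 2 + 1) ^ 2 = x ^ 2 + 1 := Real.sq_sqrt (by positivity)
  refine ⟨x / √(x ^ 2 + 1), 1 / √(x ^ 2 + 1), ?_, ?_⟩
  · field_simp; linarith
  · field_simp; linarith

/-- Linear algebra at one point. -/
theorem small_dir (u v n L M N : V) (α β γ : ℝ) (huu : ⟪u, u⟫ = 1) (hvv : ⟪v, v⟫ = 1)
    (huv : ⟪u, v⟫ = 0) (hnu : ⟪n, u⟫ = 0) (hnv : ⟪n, v⟫ = 0) (hn : n ≠ 0)
    (hLu : ⟪L, u⟫ = 0) (hLv : ⟪L, v⟫ = 0) (hMu : ⟪M, u⟫ = 0) (hMv : ⟪M, v⟫ = 0)
    (hNu : ⟪N, u⟫ = 0) (hNv : ⟪N, v⟫ = 0) (hG : ⟪L, N⟫ = ⟪M, M⟫)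
    (hα : ⟪n, L⟫ = α) (hβ : ⟪n, M⟫ = β) (hγ : ⟪n, N⟫ = γ) (hd : β ^ 2 ≤ α * γ) :
    ∃ x y c : ℝ, x ^ 2 + y ^ 2 = 1 ∧ x ^ 2 • L + (2 * x * y) • M + y ^ 2 • N = c • n := by
  have hnn : 0 < ⟪n, n⟫ := real_inner_self_pos.2 hn
  have hli : LinearIndependent ℝ ![u, v, n] := by
    apply linearIndependent_of_ne_zero_of_inner_eq_zero
    · intro i
      fin_cases i
      · intro h0; simp only [Fin.zero_eta, Matrix.cons_val_zero] at h0; simp [h0] at huu
      · intro h0; simp only [Fin.mk_one, Matrix.cons_val_one, Matrix.cons_val_zero] at h0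
        simp [h0] at hvv
      · simpa using hn
    · intro i j hij
      fin_cases i <;> fin_cases j <;> simp_all [real_inner_comm]
  set K := Submodule.span ℝ (range ![u, v, n])
  have hK : Module.finrank ℝ K = 3 := by simpa using finrank_span_eq_card hli
  have hK' : Module.finrank ℝ Kᗮ ≤ 1 := by
    have := K.finrank_add_finrank_orthogonal
    simp only [finrank_euclideanSpace, Fintype.card_fin] at this
    omega
  obtain ⟨w, hw⟩ := finrank_le_one_iff.1 hK'
  have key : ∀ (X : V) (t : ℝ), ⟪X, u⟫ = 0 → ⟪X, v⟫ = 0 → ⟪n, X⟫ = t →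
      ∃ r : ℝ, X = r • (w : V) + (t / ⟪n, n⟫) • n := by
    intro X t h1 h2 h3
    have hm : X - (t / ⟪n, n⟫) • n ∈ Kᗮ := by
      rw [Submodule.mem_orthogonal']
      intro z hz
      induction hz using Submodule.span_induction with
      | mem z hz =>
        obtain ⟨i, rfl⟩ := hz
        fin_cases i
        · simp [inner_sub_left, inner_smul_left, h1, hnu]
        · simp [inner_sub_left, inner_smul_left, h2, hnv]
        · simp only [Fin.reduceFinMk, Matrix.cons_val, inner_sub_left, inner_smul_left,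
            real_inner_comm n X, h3, conj_trivial]
          field_simp; ring
      | zero => simp
      | add a b _ _ ha hb => rw [inner_add_right, ha, hb, add_zero]
      | smul c a _ ha => rw [inner_smul_right, ha, mul_zero]
    obtain ⟨r, hr⟩ := hw ⟨_, hm⟩
    refine ⟨r, ?_⟩
    have := congrArg Subtype.val hr
    simp only [SetLike.val_smul] at this
    rw [this]; simp
  have hwn : ⟪(w : V), n⟫ = 0 :=
    (Submodule.mem_orthogonal' _ _).1 w.2 n (Submodule.subset_span ⟨2, rfl⟩)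
  obtain ⟨l, hl⟩ := key L α hLu hLv hα
  obtain ⟨m, hm⟩ := key M β hMu hMv hβ
  obtain ⟨k, hk⟩ := key N γ hNu hNv hγ
  have hG' : (l * k - m ^ 2) * ⟪(w : V), w⟫ + (α * γ - β ^ 2) / ⟪n, n⟫ = 0 := by
    rw [hl, hm, hk] at hG
    simp only [inner_add_left, inner_add_right, inner_smul_left, inner_smul_right, hwn,
      real_inner_comm (w : V) n, conj_trivial] at hG
    field_simp at hG ⊢
    linear_combination hG
  by_cases hw0 : (w : V) = 0
  · refine ⟨1, 0, α / ⟪n, n⟫, by norm_num, ?_⟩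
    rw [hl, hw0]; simp
  have hww : 0 < ⟪(w : V), w⟫ := real_inner_self_pos.2 hw0
  have h0 : 0 ≤ (α * γ - β ^ 2) / ⟪n, n⟫ := div_nonneg (by linarith) hnn.le
  have h1 : l * k ≤ m ^ 2 := by
    by_contra hc
    have : 0 < (l * k - m ^ 2) * ⟪(w : V), w⟫ := mul_pos (by linarith) hww
    linarith
  obtain ⟨x, y, h2, h3⟩ := isotropic l m k h1
  refine ⟨x, y, (x ^ 2 * α + 2 * x * y * β + y ^ 2 * γ) / ⟪n, n⟫, h2, ?_⟩
  rw [hl, hm, hk]
  have : (x ^ 2 * l + 2 * x * y * m + y ^ 2 * k) • (w : V) = 0 := by rw [h3, zero_smul]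
  linear_combination (norm := module) this

theorem dir (hf : ContDiff ℝ ∞ f) (hi : Iso f) (A : V →L[ℝ] V) (y₀ : V) (C : ℝ) (hC : 0 < C)
    (hs : ∀ y z, ⟪A y, z⟫ = ⟪A z, y⟫) (hco : ∀ y, ‖y‖ ^ 2 ≤ C ^ 2 * ⟪A y, y⟫)
    (hE : ∀ p, ⟪A (f p - y₀), f p - y₀⟫ = 1) (p : P) :
    ∃ e : P, e.1 ^ 2 + e.2 ^ 2 = 1 ∧ ‖D e (D e f) p‖ ≤ ‖A‖ * C := by
  have hw : ContDiff ℝ ∞ fun q => f q - y₀ := hf.sub contDiff_const
  have hn : ContDiff ℝ ∞ fun q => A (f q - y₀) := A.contDiff.comp hw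
  have h1 : ∀ e q, ⟪A (f q - y₀), D e f q⟫ = 0 := fun e q => by
    have := D_inner hn hw hE e q
    have h2 : D e (fun q => f q - y₀) q = D e f q := by
      simpa using D_clm (ContinuousLinearMap.id ℝ V) y₀ hf e q
    rw [D_clm A y₀ hf, h2, hs (D e f q)] at this
    linarith
  have h2 : ∀ e e', ⟪A (f p - y₀), D e' (D e f) p⟫ = -⟪A (D e' f p), D e f p⟫ := fun e e' => by
    have := D_inner hn (D_smooth hf e) (h1 e) e' p
    rw [D_clm A y₀ hf] at this
    linarith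
  have hpos : ∀ y, 0 ≤ ⟪A y, y⟫ := fun y => by
    have := hco y
    by_contra hc
    have h3 : C ^ 2 * ⟪A y, y⟫ < 0 := mul_neg_of_pos_of_neg (by positivity) (not_le.1 hc)
    linarith [sq_nonneg ‖y‖]
  have hwC : ‖f p - y₀‖ ≤ C := by
    have := hco (f p - y₀)
    rw [hE, mul_one] at this
    exact (sq_le_sq₀ (norm_nonneg _) hC.le).1 this
  have hnC : 1 ≤ ‖A (f p - y₀)‖ * C := by
    have h3 := real_inner_le_norm (A (f p - y₀)) (f p - y₀)
    rw [hE] at h3
    exact h3.trans (mul_le_mul_of_nonneg_left hwC (norm_nonneg _))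
  have hn0 : A (f p - y₀) ≠ 0 := fun h0 => by rw [h0] at hnC; norm_num at hnC
  have hd : (-⟪A (D (1, 0) f p), D (0, 1) f p⟫) ^ 2 ≤
      -⟪A (D (1, 0) f p), D (1, 0) f p⟫ * -⟪A (D (0, 1) f p), D (0, 1) f p⟫ := by
    generalize D (1, 0) f p = u
    generalize D (0, 1) f p = v
    have := discrim_le_zero (a := ⟪A u, u⟫) (b := 2 * ⟪A u, v⟫) (c := ⟪A v, v⟫) fun t => by
      have := hpos (t • u + v)
      simp only [map_add, map_smul, inner_add_left, inner_add_right, inner_smul_left,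
        inner_smul_right, conj_trivial, hs v u] at this
      linarith
    unfold discrim at this
    nlinarith
  obtain ⟨x, y, c, h3, h4⟩ := small_dir (D (1, 0) f p) (D (0, 1) f p) (A (f p - y₀))
    (D (1, 0) (D (1, 0) f) p) (D (1, 0) (D (0, 1) f) p) (D (0, 1) (D (0, 1) f) p) _ _ _
    (by rw [iso_inner hi]; norm_num) (by rw [iso_inner hi]; norm_num)
    (by rw [iso_inner hi]; norm_num) (h1 _ _) (h1 _ _) hn0 (normal hf hi ..) (normal hf hi ..)
    (normal hf hi ..) (normal hf hi ..) (normal hf hi ..) (normal hf hi ..) (gauss hf hi ..)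
    (h2 _ _) (h2 _ _) (h2 _ _) hd
  have h5 : D (x, y) (D (x, y) f) p = c • A (f p - y₀) := by
    have h6 := congrFun (D_comm hf (0, 1) (1, 0)) p
    rw [← h4]
    simp only [D_key hf] at h6 ⊢
    have : ((x, y) : P) = x • (1, 0) + y • (0, 1) := by simp
    rw [this]
    simp only [map_add, map_smul, ContinuousLinearMap.add_apply, ContinuousLinearMap.smul_apply, h6]
    module
  refine ⟨(x, y), h3, ?_⟩
  have h7 := h2 (x, y) (x, y)
  have h8 : ‖D (x, y) f p‖ = 1 := by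
    have := hi p (x, y)
    simp only [h3] at this
    unfold D
    nlinarith [norm_nonneg (fderiv ℝ f p (x, y))]
  have h9 : |⟪A (D (x, y) f p), D (x, y) f p⟫| ≤ ‖A‖ := by
    have := abs_real_inner_le_norm (A (D (x, y) f p)) (D (x, y) f p)
    have h10 := A.le_opNorm (D (x, y) f p)
    rw [h8, mul_one] at this h10
    linarith
  rw [h5, inner_smul_right, real_inner_self_eq_norm_sq] at h7
  rw [h5, norm_smul, Real.norm_eq_abs]
  have h11 : |c| * ‖A (f p - y₀)‖ ^ 2 ≤ ‖A‖ := by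
    rw [← abs_neg, ← h7, abs_mul, abs_of_nonneg (sq_nonneg ‖A (f p - y₀)‖)] at h9
    exact h9
  have h12 : 0 ≤ |c| * ‖A (f p - y₀)‖ := by positivity
  nlinarith [mul_le_mul_of_nonneg_left hnC h12, mul_le_mul_of_nonneg_right h11 hC.le]

theorem lip (hf : ContDiff ℝ ∞ f) (hi : Iso f) (p q : P) : ‖f p - f q‖ ≤ 2 * ‖p - q‖ := by
  refine (convex_univ (𝕜 := ℝ)).norm_image_sub_le_of_norm_fderiv_le
    (fun x _ => hf.differentiable (by simp) x) (fun x _ => ?_) (mem_univ q) (mem_univ p)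
  refine ContinuousLinearMap.opNorm_le_bound _ (by norm_num) fun e => ?_
  have h1 : |e.1| ≤ ‖e‖ := norm_fst_le e
  have h2 : |e.2| ≤ ‖e‖ := norm_snd_le e
  have h3 := hi x e
  refine (sq_le_sq₀ (norm_nonneg _) (by positivity)).1 ?_
  rw [← sq_abs e.1, ← sq_abs e.2] at h3
  nlinarith [abs_nonneg e.1, abs_nonneg e.2]

theorem second_nonpos {φ φ' : ℝ → ℝ} {d : ℝ} (h1 : ∀ s, HasDerivAt φ (φ' s) s)
    (h2 : HasDerivAt φ' d 0) (hm : IsLocalMax φ 0) : d ≤ 0 := by
  by_contra hd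
  have e1 : deriv φ = φ' := funext fun s => (h1 s).deriv
  have hmin : IsLocalMin φ 0 := isLocalMin_of_deriv_deriv_pos
    (by rw [e1, h2.deriv]; exact not_le.1 hd) hm.deriv_eq_zero (h1 0).continuousAt
  have e2 : φ =ᶠ[𝓝 0] fun _ => φ 0 := by
    filter_upwards [hm, hmin] with s a b using le_antisymm a b
  have e3 := e2.deriv.deriv_eq
  rw [e1, h2.deriv] at e3
  simp at e3
  exact hd e3.le

theorem main (hf : ContDiff ℝ ∞ f) (hi : Iso f) {κ a : ℝ} (ha : 0 < a) (hκ : κ * a ≤ 1 / 100)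
    (hdir : ∀ p, ∃ e : P, e.1 ^ 2 + e.2 ^ 2 = 1 ∧ ‖D e (D e f) p‖ ≤ κ)
    (hg : ∀ t v, f (-t, v + a) = f (t, v)) : False := by
  set c := f (8 * a, 0) with hc
  set ψ : P → ℝ := fun p => ⟪f p - c, f p - c⟫ - p.1 ^ 2 / 2 with hψ
  have hcont : Continuous ψ := by
    have := hf.continuous
    fun_prop
  obtain ⟨p, ⟨hp1, hp2⟩, hmax⟩ := ((isCompact_Icc (a := -(8 * a)) (b := 8 * a)).prod
    (isCompact_Icc (a := 0) (b := 2 * a))).exists_isMaxOn
    ⟨(0, 0), ⟨⟨by linarith, by linarith⟩, ⟨le_rfl, by linarith⟩⟩⟩ hcont.continuousOn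
  have hall : ∀ q : P, q.1 ∈ Icc (-(8 * a)) (8 * a) → ψ q ≤ ψ p := fun q hq => by
    have hper : Function.Periodic (fun v => f (q.1, v)) (2 * a) := fun v => by
      have h1 := hg q.1 v
      have h2 := hg (-q.1) (v + a)
      rw [neg_neg, h1] at h2
      simpa [add_assoc, two_mul] using h2
    obtain ⟨v, hv, hv'⟩ := hper.exists_mem_Ico₀ (by linarith) q.2
    have := hmax (show (q.1, v) ∈ _ from ⟨hq, ⟨hv.1, hv.2.le⟩⟩)
    simp only [hψ, mem_setOf_eq] at this ⊢
    rw [← hv'] at this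
    exact this
  have h0 : 0 ≤ ψ p := by
    refine le_trans ?_ (hall (0, 0) ⟨by linarith, by linarith⟩)
    simpa [hψ] using real_inner_self_nonneg (x := f (0, 0) - c)
  have hbd : ∀ v, |v| ≤ 2 * a → ⟪f (8 * a, v) - c, f (8 * a, v) - c⟫ ≤ 16 * a ^ 2 := fun v hv => by
    have := lip hf hi (8 * a, v) (8 * a, 0)
    simp only [Prod.mk_sub_mk, sub_self, sub_zero, Prod.norm_mk, norm_zero, Real.norm_eq_abs,
      abs_nonneg, sup_of_le_right] at this
    rw [real_inner_self_eq_norm_sq]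
    nlinarith [norm_nonneg (f (8 * a, v) - c)]
  have hint : p.1 ∈ Ioo (-(8 * a)) (8 * a) := by
    obtain ⟨t, v⟩ := p
    simp only [hψ] at hp1 hp2 h0 ⊢
    refine ⟨lt_of_le_of_ne hp1.1 fun h => ?_, lt_of_le_of_ne hp1.2 fun h => ?_⟩
    · have h1 := hg (8 * a) (v - a)
      rw [sub_add_cancel] at h1
      rw [← h, h1] at h0
      have := hbd (v - a) (abs_le.2 ⟨by linarith [hp2.1], by linarith [hp2.2]⟩)
      nlinarith
    · rw [h] at h0
      have := hbd v (abs_le.2 ⟨by linarith [hp2.1], hp2.2⟩)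
      nlinarith
  obtain ⟨e, he, hκ'⟩ := hdir p
  have hloc : IsLocalMax (fun s : ℝ => ψ (p + s • e)) 0 := by
    have ht : Tendsto (fun s : ℝ => (p + s • e).1) (𝓝 0) (𝓝 p.1) := by
      have : Continuous fun s : ℝ => (p + s • e).1 := by fun_prop
      simpa using this.tendsto 0
    filter_upwards [ht.eventually (Icc_mem_nhds hint.1 hint.2)] with s hs
    simpa using hall _ hs
  have hl : ∀ s : ℝ, HasDerivAt (fun s : ℝ => (p + s • e).1) e.1 s := fun s => by
    simpa using ((hasDerivAt_id s).mul_const e.1).const_add p.1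
  have h1 : ∀ s, HasDerivAt (fun s : ℝ => ψ (p + s • e))
      (2 * ⟪f (p + s • e) - c, D e f (p + s • e)⟫ - (p + s • e).1 * e.1) s := fun s => by
    have h2 := (D_line hf e p s).sub_const c
    refine ((h2.inner ℝ h2).sub (((hl s).pow 2).div_const 2)).congr_deriv ?_
    rw [real_inner_comm (f (p + s • e) - c)]
    simp
    ring
  have h2 := ((((D_line hf e p 0).sub_const c).inner ℝ
    (D_line (D_smooth hf e) e p 0)).const_mul 2).sub ((hl 0).mul_const e.1)
  have h3 := second_nonpos h1 h2 hloc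
  simp only [zero_smul, add_zero] at h3
  rw [iso_inner hi] at h3
  have h4 := abs_real_inner_le_norm (f p - c) (D e (D e f) p)
  have h5 : ‖f p - c‖ ≤ 32 * a := by
    refine (lip hf hi p (8 * a, 0)).trans ?_
    have : ‖p - (8 * a, 0)‖ ≤ 16 * a := by
      refine max_le ?_ ?_
      · exact abs_le.2 ⟨by simp; linarith [hp1.1], by simp; linarith [hp1.2]⟩
      · exact abs_le.2 ⟨by simp; linarith [hp2.1], by simp; linarith [hp2.2]⟩
    linarith
  have h6 := mul_le_mul h5 hκ' (norm_nonneg _) (by positivity)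
  have h7 := neg_abs_le ⟪f p - c, D e (D e f) p⟫
  nlinarith [sq_nonneg e.2]

theorem final (y₀ : V) (b : OrthonormalBasis (Fin 4) ℝ V) (c : Fin 4 → ℝ) (hc : ∀ i, 0 < c i) :
    ∃ a₀ > 0, ∀ a, 0 < a → a ≤ a₀ → ∀ f : P → V, ContDiff ℝ ∞ f → Iso f →
      (∀ t v, f (-t, v + a) = f (t, v)) →
      ¬ ∀ p, ∑ i, ⟪b i, f p - y₀⟫ ^ 2 / c i ^ 2 = 1 := by
  set A : V →L[ℝ] V := ∑ i, (1 / c i ^ 2) • (innerSL ℝ (b i)).smulRight (b i) with hA
  have hAa : ∀ y z, ⟪A y, z⟫ = ∑ i, ⟪b i, y⟫ * ⟪b i, z⟫ / c i ^ 2 := fun y z => by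
    simp only [hA, ContinuousLinearMap.sum_apply, ContinuousLinearMap.smul_apply,
      ContinuousLinearMap.smulRight_apply, innerSL_apply_apply, sum_inner, inner_smul_left,
      conj_trivial]
    exact Finset.sum_congr rfl fun i _ => by ring
  set C := ∑ i, c i with hC
  have hC0 : 0 < C := Finset.sum_pos (fun i _ => hc i) Finset.univ_nonempty
  have hκ : 0 ≤ ‖A‖ * C := by positivity
  refine ⟨1 / (100 * (‖A‖ * C + 1)), by positivity, fun a ha ha' f hf hi hg hE => ?_⟩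
  refine main hf hi ha (κ := ‖A‖ * C) ?_ (dir hf hi A y₀ C hC0 ?_ ?_ ?_) hg
  · rw [le_div_iff₀ (by positivity)] at ha'
    nlinarith
  · intro y z
    rw [hAa, hAa]
    exact Finset.sum_congr rfl fun i _ => by ring
  · intro y
    rw [hAa, ← b.sum_sq_inner_right y, Finset.mul_sum]
    refine Finset.sum_le_sum fun i _ => ?_
    have h1 : c i ≤ C := Finset.single_le_sum (fun j _ => (hc j).le) (Finset.mem_univ i)
    have h2 := hc i
    rw [← mul_div_assoc, le_div_iff₀ (by positivity)]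
    nlinarith [mul_le_mul_of_nonneg_left (pow_le_pow_left₀ h2.le h1 2) (sq_nonneg ⟪b i, y⟫)]
  · intro p
    rw [hAa, ← hE p]
    exact Finset.sum_congr rfl fun i _ => by ring

end Pool.Agent.H.MP_174134_gt
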